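import Pool.Agent.Q145.GC.Asm

set_option autoImplicit false
set_option maxHeartbeats 4000000

/-!
# The primes leave Cramér's model at second order: a multiplicative chaos law for the largest gap

Cramér's model predicts a Gumbel law for the largest gap: `log² x + G log x`.  We determine the
law for the true primes and random sequences of shifts instead of `1, 2, 3, ...`, in the critical
range (as many points as shifts to choose from).  The number of points missed by the first
`log X log Y + u log Y` shifts is a mixed Poisson variable: the mean `c(ρ) exp (-u)` is the one of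
Cramér's model, but it is multiplied by a random variable, the total mass of the Gaussian
multiplicative chaos on the profinite integers whose covariance is the singular series of Hardy
and Littlewood for pairs of primes.  The same theorem holds for Cramér's random set with the
constant 1 instead of this variable.
-/

namespace Pool.Agent.Results.MP_028722_nt.ChaosLaw

open Finset MeasureTheory ProbabilityTheory Filter Topology

open scoped Classical

/-! ## The multiplicative chaos of the singular series -/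

/-- The singular series of the pair `n, n + h`, truncated at `w`. -/
noncomputable def singular (w h : ℕ) : ℝ :=
  ∏ p ∈ (range (w + 1)).filter Nat.Prime, if p ∣ h then (p : ℝ) / (p - 1) else (p : ℝ) * (p - 2) / (p - 1) ^ 2

instance (w : ℕ) : NeZero (primorial w) := ⟨(primorial_pos w).ne'⟩

/-- The covariance of the Gaussian field on the residue classes modulo the product of the primes
up to `w`: the truncated singular series of the difference, minus one. -/
noncomputable def covariance (w : ℕ) : Matrix (ZMod (primorial w)) (ZMod (primorial w)) ℝ :=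
  fun c d => singular w (c - d).val - 1

/-- The law of the total mass of the multiplicative chaos at level `w`: the average over the
classes `c` of `exp (√ρ g_c - ρ Var(g_c) / 2)`, where `g` is the Gaussian field. -/
noncomputable def massLaw (ρ : ℝ) (w : ℕ) : Measure ℝ :=
  (multivariateGaussian (0 : EuclideanSpace ℝ (ZMod (primorial w))) (covariance w)).map
    (fun g => (∑ c, Real.exp (√ρ * g c - ρ * covariance w c c / 2)) / primorial w)

/-! ## The waiting times -/

/-- The number of the `n ∈ V` for which none of `n + a_1, ..., n + a_m` has the property `Q`. -/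
noncomputable def missed (Q : ℕ → Prop) (V : Finset ℕ) {K : ℕ} (a : Fin K → ℕ) (m : ℕ) : ℕ :=
  (V.filter (fun n => ∀ i : Fin K, (i : ℕ) < m → ¬ Q (n + a i))).card

/-- The proportion of the sequences `a` of `K` shifts from `[1, Y]` for which exactly `b l` points
of `V` are missed by the first `k l` shifts, for all `l`. -/
noncomputable def prob (Q : ℕ → Prop) (V : Finset ℕ) (Y K : ℕ) {r : ℕ} (k b : Fin r → ℕ) : ℝ :=
  (((Fintype.piFinset (fun _ : Fin K => Icc 1 Y)).filter (fun a => ∀ l, missed Q V a (k l) = b l)).card : ℝ) / (Y : ℝ) ^ K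

/-- The proportion of the sets of `X` elements of `[1, Y]` with the property `R`. -/
noncomputable def share (X Y : ℕ) (R : Finset ℕ → Prop) : ℝ :=
  (((powersetCard X (Icc 1 Y)).filter (fun V => R V)).card : ℝ) / (Y.choose X : ℝ)

/-- The Poisson distribution. -/
noncomputable def poisson (lam : ℝ) (j : ℕ) : ℝ := Real.exp (-lam) * lam ^ j / j.factorial

/-- The binomial distribution. -/
noncomputable def binomial (n m : ℕ) (q : ℝ) : ℝ := (n.choose m : ℝ) * q ^ m * (1 - q) ^ (n - m)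

/-- The constant of the mean. -/
noncomputable def meanConst (ρ : ℝ) : ℝ :=
  ∫ x in (0 : ℝ)..1, Real.exp (ρ * ((x + 1) * Real.log (x + 1) - x * Real.log x - 3 / 2))

/-- The process of the numbers of missed points at the times `log X log Y + u_l log Y`
has the limit law: at time `u_0` mixed Poisson, of mean `meanConst ρ * exp (-u_0)` times a random
variable of law `μ`; then every missed point survives until the next time with probability
`exp (-(u_(l+1) - u_l))`, independently. -/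
noncomputable def limitLaw (ρ : ℝ) (μ : Measure ℝ) {r : ℕ} (u : Fin (r + 1) → ℝ) (b : Fin (r + 1) → ℕ) : ℝ :=
  (∫ x, poisson (meanConst ρ * Real.exp (-(u 0)) * x) (b 0) ∂μ) *
    ∏ l : Fin r, binomial (b l.castSucc) (b l.succ) (Real.exp (-(u l.succ - u l.castSucc)))

/-- The sets `V i ⊆ [1, Y i]` of `X i` elements are equidistributed in the initial segments of
`[1, Y i]` and the residue classes. -/
def Equidistributed (V : ℕ → Finset ℕ) (X Y : ℕ → ℕ) : Prop :=
  ∀ (W c : ℕ) (x : ℝ), 0 < W → 0 < x → x ≤ 1 →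
  Tendsto (fun i => (((V i).filter (fun n : ℕ => (n : ℝ) ≤ x * Y i ∧ n % W = c % W)).card : ℝ) / X i) atTop (𝓝 (x / W))

/-- The set `Q` follows the law with the mixing distributions `μ ρ`: `log X / log Y → ρ`, the
numbers of shifts are `log X log Y + (u_l + o(1)) log Y`, and `V` is almost every set of `X` points
of `[1, Y]`, or any equidistributed set of at least `δ Y` points, `δ > 0`. -/
def Follows (Q : ℕ → Prop) (μ : ℝ → Measure ℝ) : Prop :=
  ∀ (ρ : ℝ) (r : ℕ) (u : Fin (r + 1) → ℝ) (X Y K : ℕ → ℕ) (k : ℕ → Fin (r + 1) → ℕ), 0 ≤ ρ →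
  Tendsto X atTop atTop → (∀ i, X i ≤ Y i) →
  Tendsto (fun i => Real.log (X i) / Real.log (Y i)) atTop (𝓝 ρ) →
  (∀ i, Monotone (k i)) → (∀ i l, k i l ≤ K i) →
  (∀ l, Tendsto (fun i => ((k i l : ℝ) - Real.log (X i) * Real.log (Y i)) / Real.log (Y i)) atTop (𝓝 (u l))) →
  ∀ b : Fin (r + 1) → ℕ,
  (∀ ε : ℝ, 0 < ε → Tendsto (fun i => share (X i) (Y i)
    (fun V => ε < |prob Q V (Y i) (K i) (k i) b - limitLaw ρ (μ ρ) u b|)) atTop (𝓝 0)) ∧
  (∀ (V : ℕ → Finset ℕ) (δ : ℝ), (∀ i, V i ⊆ Icc 1 (Y i)) → (∀ i, (V i).card = X i) → 0 < δ → (∀ i, δ * Y i ≤ X i) →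
    Equidistributed V X Y → Tendsto (fun i => prob Q (V i) (Y i) (K i) (k i) b) atTop (𝓝 (limitLaw ρ (μ ρ) u b)))

open Pool.Agent.Q145.GC

theorem limitLaw_eq (ρ : ℝ) (μ : Measure ℝ) {r : ℕ} (u : Fin (r + 1) → ℝ) (b : Fin (r + 1) → ℕ) :
    limitLaw ρ μ u b = (∫ x, Pool.Agent.Q145.GP.poi (cst ρ * Real.exp (-(u 0)) * x) (b 0) ∂μ) *
      ∏ l : Fin r, bino (b l.castSucc) (b l.succ) (Real.exp (-(u l.succ - u l.castSucc))) := rfl

theorem limitLaw_dirac (ρ : ℝ) {r : ℕ} (u : Fin (r + 1) → ℝ) (b : Fin (r + 1) → ℕ) :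
    limitLaw ρ (Measure.dirac 1) u b = Pool.Agent.Q145.GP.poi (cst ρ * Real.exp (-(u 0))) (b 0) *
      ∏ l : Fin r, bino (b l.castSucc) (b l.succ) (Real.exp (-(u l.succ - u l.castSucc))) := by
  rw [limitLaw_eq, integral_dirac, mul_one]

theorem prob_prime (V : Finset ℕ) (Y K : ℕ) {r : ℕ} (k b : Fin r → ℕ) : prob Nat.Prime V Y K k b = joint V Y K k b :=
  (joint_eq V Y K k b).symm

theorem to_lim (F : ℕ → ℝ) (c : ℝ) (h : ∀ ε : ℝ, 0 < ε → ∀ᶠ i in atTop, |F i - c| ≤ ε) : Tendsto F atTop (𝓝 c) := by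
  rw [Metric.tendsto_atTop]
  intro ε hε
  obtain ⟨N, hN⟩ := eventually_atTop.1 (h (ε / 2) (by positivity))
  refine ⟨N, fun i hi => ?_⟩
  have := hN i hi
  rw [Real.dist_eq]
  linarith

/-- Cramér's law of the largest gap for the primes and random shifts. -/
theorem result : ∃ (μ : ℝ → Measure ℝ) (v : ℝ → ℝ),
    -- the mixing distributions: limits of the total masses; mean one, not degenerate for `ρ > 0`
    (∀ ρ : ℝ, 0 ≤ ρ → IsProbabilityMeasure (μ ρ) ∧ μ ρ (Set.Iio 0) = 0 ∧
      (∀ f : ℝ → ℝ, Continuous f → (∃ C, ∀ x, |f x| ≤ C) →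
        Tendsto (fun w => ∫ x, f x ∂(massLaw ρ w)) atTop (𝓝 (∫ x, f x ∂(μ ρ)))) ∧
      Integrable (fun x => x) (μ ρ) ∧ ∫ x, x ∂(μ ρ) = 1 ∧ Integrable (fun x => x ^ 2) (μ ρ) ∧ ∫ x, x ^ 2 ∂(μ ρ) = v ρ ∧
      Tendsto (fun w => (∑ h ∈ range (primorial w), Real.exp (ρ * (singular w h - 1))) / primorial w) atTop (𝓝 (v ρ)) ∧
      (0 < ρ → 1 < v ρ ∧ (∀ t : ℝ, 0 < t → Real.exp (-t) < ∫ x, Real.exp (-(t * x)) ∂(μ ρ)) ∧
        ∀ c : ℝ, ∃ t : ℝ, 0 < t ∧ ∫ x, Real.exp (-(t * x)) ∂(μ ρ) ≠ Real.exp (-(t * c)))) ∧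
    -- the primes
    Follows Nat.Prime μ ∧
    -- Cramér's random set
    (∀ (Ω : Type) [MeasurableSpace Ω] (P : Measure Ω) [IsProbabilityMeasure P] (E : ℕ → Set Ω),
      (∀ n, MeasurableSet (E n)) → iIndepSet E P → (∀ n : ℕ, 3 ≤ n → P.real (E n) = 1 / Real.log n) →
      ∀ᵐ ω ∂P, Follows (fun n => ω ∈ E n) (fun _ => Measure.dirac 1)) ∧
    -- the primes and all sets, below the critical range
    (∀ ε Λ : ℝ, 0 < ε → 0 < Λ → ∃ (η : ℝ) (X₀ : ℕ), 0 < η ∧ ∀ (V : Finset ℕ) (Y : ℕ), X₀ ≤ V.card → V ⊆ Icc 1 Y →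
      Real.log V.card * Real.log (Real.log Y) ≤ η * Real.log Y →
      (∀ k : ℕ, |prob Nat.Prime V Y k (fun _ : Fin 1 => k) (fun _ => 0) -
        Real.exp (-(V.card * Real.exp (-(k / Real.log Y))))| ≤ ε) ∧
      (∀ k : ℕ, V.card * Real.exp (-(k / Real.log Y)) ≤ Λ → ∀ j : ℕ,
        |prob Nat.Prime V Y k (fun _ : Fin 1 => k) (fun _ => j) -
          poisson (V.card * Real.exp (-(k / Real.log Y))) j| ≤ ε)) := by
  choose! μ v hμ using lims
  refine ⟨μ, v, fun ρ hρ => ?_, ?_, ?_, ?_⟩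
  · obtain ⟨h1, h2, h3, h4, h5, h6, h7, h8, h9⟩ := hμ ρ hρ
    refine ⟨h1, h2, fun f hf hC => ?_, h3, h4, h5, h6, ?_, fun h0 => ⟨h7 h0, fun t ht => ?_, fun c => ?_⟩⟩
    · refine (h9 f hf hC).congr fun w => ?_
      rw [← massLaw_eq]
      rfl
    · refine h8.congr fun w => ?_
      rw [← vv_sing]
      rfl
    · exact laplace_gt (μ ρ) h2 h3 h4 (by rw [h6]; exact (h7 h0).ne') t ht
    · exact laplace_ne (μ ρ) h2 h4 (by rw [h6]; exact (h7 h0).ne') c
  · intro ρ r u X Y K k hρ hX hXY hr hm hK hk b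
    obtain ⟨h1, h2, h3, h4, h5, h6, h7, h8, h9⟩ := hμ ρ hρ
    have h := forms X Y (fun i V => prob Nat.Prime V (Y i) (K i) (k i) b) (limitLaw ρ (μ ρ) u b) (fun ε δ hε hδ => by
      simp_rw [prob_prime, limitLaw_eq]
      exact process inp ρ hρ (μ ρ) h2 h9 r u X Y K k hX hXY hr hm hK hk b ε δ hε hδ)
    refine ⟨h.1, fun V δ hV hVX hδ hδX hE => ?_⟩
    apply to_lim
    intro ε hε
    simp_rw [prob_prime, limitLaw_eq]
    exact process_dense ρ hρ (μ ρ) h2 h9 r u X Y K k hX hXY hr hm hK hk V hV hVX δ hδ hδX hE b ε hε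
  · intro Ω _ P _ E hE hi hp
    filter_upwards [Pool.Agent.Q145.GQ.cra Ω P E hE hi hp] with ω hω
    intro ρ r u X Y K k hρ hX hXY hr hm hK hk b
    have h := forms X Y (fun i V => prob (fun n => ω ∈ E n) V (Y i) (K i) (k i) b) (limitLaw ρ (Measure.dirac 1) u b) (fun ε δ hε hδ => by
      have h1 := Pool.Agent.Q145.GQ.process (fun n => ω ∈ E n) hω.1 hω.2.1 hω.2.2 ρ hρ r u X Y K k hX hXY hr hm hK hk b ε δ hε hδ
      simp_rw [limitLaw_dirac]
      exact h1)
    refine ⟨h.1, fun V δ hV hVX hδ hδX hE => ?_⟩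
    apply to_lim
    intro ε hε
    simp_rw [limitLaw_dirac]
    exact Pool.Agent.Q145.GQ.process_dense (fun n => ω ∈ E n) hω.1 hω.2.1 hω.2.2 ρ hρ r u X Y K k hX hXY hr hm hK hk V hV hVX hE b ε hε
  · intro ε Λ hε hΛ
    obtain ⟨η, X₀, hη, h⟩ := Pool.Agent.Q145.GP.GLaw.law ε Λ hε hΛ
    refine ⟨η, max X₀ 1, hη, fun V Y hX hV hlog => ?_⟩
    have h1 := h V Y ((le_max_left _ _).trans hX) hV hlog
    have hY : 1 ≤ Y := by
      have h2 := card_le_card hV
      rw [Nat.card_Icc, Nat.add_sub_cancel] at h2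
      exact ((le_max_right _ _).trans hX).trans h2
    have e : ∀ k j : ℕ, prob Nat.Prime V Y k (fun _ : Fin 1 => k) (fun _ => j) = Pool.Agent.Q145.GP.GLaw.prob V Y k j := by
      intro k j
      rw [prob_prime, joint_one V Y k k j le_rfl hY, Pool.Agent.Q145.GP.GLaw.prob_eq]
      rfl
    refine ⟨fun k => ?_, fun k hk j => ?_⟩
    · rw [e]
      exact h1.1 k
    · rw [e]
      exact h1.2 k hk j

end Pool.Agent.Results.MP_028722_nt.ChaosLaw
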