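import Pool.Agent.Q120.ET.Long

/-!
# The information-theoretic threshold for Cramér's bound

We consider arbitrary random sets `A` of integers whose law on the dyadic block `[2 ^ k, 2 ^ (k + 1))` has
relative entropy at most `d k` with respect to Cramér's model.
-/

set_option autoImplicit false

namespace Pool.Agent.Results.MP_028722_nt.EntropyThreshold

open Finset MeasureTheory Filter Pool.Agent.Q120.ET

/-- Cramér's conjecture in the strong form for `S` (constant one): for `lam > 1` all intervals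
`(x, x + lam (log x) ^ 2]`, `x` large, meet `S`, and for `lam < 1` and all large `X` some interval
`(x, x + lam (log X) ^ 2]` inside `(0, X]` does not. -/
def CramerOne (S : Set ℕ) : Prop :=
  (∀ lam : ℝ, 1 < lam → ∀ᶠ x : ℕ in atTop, ∃ n ∈ S, x < n ∧ (n : ℝ) ≤ x + lam * Real.log x ^ 2) ∧
  (∀ lam : ℝ, lam < 1 → ∀ᶠ X : ℕ in atTop, ∃ x : ℕ, (x : ℝ) + lam * Real.log X ^ 2 ≤ X ∧
    ∀ n ∈ S, ¬ (x < n ∧ (n : ℝ) ≤ x + lam * Real.log X ^ 2))

/-- Cramér's bound for `S`. -/
def CramerBound (S : Set ℕ) : Prop :=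
  ∃ C : ℝ, ∀ᶠ x : ℕ in atTop, ∃ n ∈ S, x < n ∧ (n : ℝ) ≤ x + C * Real.log x ^ 2

/-- All random sets whose relative entropies with respect to Cramér's model on the blocks
`[2 ^ k, 2 ^ (k + 1))` are at most `d k`, `k` large, almost surely have the property `E`. -/
def AllModels (d : ℕ → ℝ) (E : Set ℕ → Prop) : Prop :=
  ∀ (Ω : Type) [MeasurableSpace Ω] (μ : Measure Ω) [IsProbabilityMeasure μ] (A : Ω → Set ℕ),
    IsRandomSet A → (∀ᶠ k : ℕ in atTop, relEntropy μ A (block k) ≤ d k) → ∀ᵐ ω ∂μ, E (A ω)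

/-- Some random set whose relative entropies with respect to Cramér's model on the blocks
`[2 ^ k, 2 ^ (k + 1))` are at most `d k` for all `k ≥ 2` almost surely has the property `E`. -/
def SomeModel (d : ℕ → ℝ) (E : Set ℕ → Prop) : Prop :=
  ∃ (Ω : Type) (_ : MeasurableSpace Ω) (μ : Measure Ω) (_ : IsProbabilityMeasure μ) (A : Ω → Set ℕ),
    IsRandomSet A ∧ (∀ k : ℕ, 2 ≤ k → relEntropy μ A (block k) ≤ d k) ∧ ∀ᵐ ω ∂μ, E (A ω)

/-- All gaps in the block `k`, `k` large, are at most `f k`. -/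
def GapsAtMost (f : ℕ → ℝ) (S : Set ℕ) : Prop :=
  ∀ᶠ k : ℕ in atTop, ∀ x ∈ block k, ∃ n ∈ S, x < n ∧ (n : ℝ) ≤ x + f k

/-- For every `C` infinitely many blocks `k` contain a gap longer than `C f k`. -/
def GapsUnbounded (f : ℕ → ℝ) (S : Set ℕ) : Prop :=
  ∀ C : ℝ, ∃ᶠ k : ℕ in atTop, ∃ x h : ℕ, C * f k ≤ h ∧ Ioc x (x + h) ⊆ block k ∧
    ∀ n ∈ S, ¬ (x < n ∧ n ≤ x + h)

theorem someModel_of {f d : ℕ → ℝ} (hf : GapFunction f) (hd : ∀ k, 0 ≤ d k)
    (hns : ¬ Summable (fun k : ℕ => d k * k / f k)) : SomeModel d (GapsUnbounded f) := by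
  obtain ⟨p, hp0, hp1, h1, h2⟩ := exists_long_gaps hf hd hns
  exact ⟨ℕ → Finset ℕ, inferInstance, blockLaw p, isProb_blockLaw hp0 hp1, fun ω => blockSet ω,
    isRandomSet_blockSet, h1, h2⟩

theorem not_allModels_of {d : ℕ → ℝ} {E F : Set ℕ → Prop} (h : SomeModel d F) (hEF : ∀ S, F S → ¬ E S) :
    ¬ AllModels d E := by
  intro hall
  obtain ⟨Ω, m, μ, hμ, A, hA, h1, h2⟩ := h
  have h3 := hall Ω μ A hA (by filter_upwards [eventually_ge_atTop 2] with k hk; exact h1 k hk)
  obtain ⟨ω, h4, h5⟩ := (h3.and h2).exists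
  exact hEF _ h5 h4

theorem log_two_pow_le {k x : ℕ} (hx : x ∈ block k) : Real.log (2 ^ k) ≤ Real.log x := by
  rw [block, mem_Ico] at hx
  apply Real.log_le_log (by positivity)
  exact_mod_cast hx.1

theorem log_le_log_two_pow {k x : ℕ} (hx : x ∈ block k) : Real.log x ≤ Real.log (2 ^ (k + 1)) := by
  rw [block, mem_Ico] at hx
  have : 0 < x := lt_of_lt_of_le (by positivity) hx.1
  apply Real.log_le_log (by exact_mod_cast this)
  exact_mod_cast hx.2.le

theorem mem_block_log {x : ℕ} (hx : 1 ≤ x) : x ∈ block (Nat.log 2 x) := by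
  rw [block, mem_Ico]
  exact ⟨Nat.pow_log_le_self 2 (by omega), Nat.lt_pow_succ_log_self (by norm_num) x⟩

theorem tendsto_natLog : Tendsto (Nat.log 2) atTop atTop := by
  rw [tendsto_atTop]
  intro b
  filter_upwards [eventually_ge_atTop (2 ^ b)] with n hn
  exact Nat.le_log_of_pow_le (by norm_num) hn

theorem cramer_of_gapsAtMost {f : ℕ → ℝ} {g : ℝ → ℝ} {S : Set ℕ} (h : GapsAtMost f S)
    (hfg : ∀ k x : ℕ, x ∈ block k → f k ≤ g (Real.log x)) :
    ∀ᶠ x : ℕ in atTop, ∃ n ∈ S, x < n ∧ (n : ℝ) ≤ x + g (Real.log x) := by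
  filter_upwards [tendsto_natLog.eventually h, eventually_ge_atTop 1] with x hx hx1
  obtain ⟨n, hn1, hn2, hn3⟩ := hx x (mem_block_log hx1)
  exact ⟨n, hn1, hn2, hn3.trans (by have := hfg _ x (mem_block_log hx1); linarith)⟩

theorem cramerOne_of {d : ℕ → ℝ} (hs : Summable (fun k : ℕ => d k / k)) :
    AllModels d CramerOne := by
  intro Ω _ μ _ A hA hd
  have hlog2 : 0 < Real.log 2 := Real.log_pos (by norm_num)
  have h1 : ∀ j : ℕ, ∀ᵐ ω ∂μ, GapsAtMost (fun k => (1 + 1 / ((j : ℝ) + 1)) * Real.log (2 ^ k) ^ 2) (A ω) := by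
    intro j
    have hj : 0 < 1 / ((j : ℝ) + 1) := by positivity
    apply all_gaps hA (gapFunction_log hj) _ hd
    refine (hs.mul_left (1 / ((1 + 1 / ((j : ℝ) + 1)) * Real.log 2 ^ 2))).congr (fun k => ?_)
    rw [Real.log_pow]
    by_cases hk : (k : ℝ) = 0
    · rw [hk]; simp
    · field_simp
  have h2 : ∀ j : ℕ, ∀ᵐ ω ∂μ, ∀ᶠ k : ℕ in atTop, ∃ x h : ℕ,
      (1 - 1 / ((j : ℝ) + 2)) * Real.log (2 ^ k) ^ 2 ≤ h ∧
      Ioc x (x + h) ⊆ block k ∧ ∀ n ∈ A ω, ¬ (x < n ∧ n ≤ x + h) := by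
    intro j
    refine long_gaps hA hs hd (by positivity) ?_
    rw [div_lt_one (by positivity)]
    have : (0 : ℝ) ≤ j := Nat.cast_nonneg j
    linarith
  filter_upwards [ae_all_iff.2 h1, ae_all_iff.2 h2] with ω hω1 hω2
  constructor
  · intro lam hlam
    obtain ⟨j, hj⟩ := exists_nat_one_div_lt (show (0 : ℝ) < lam - 1 by linarith)
    refine cramer_of_gapsAtMost (g := fun y => lam * y ^ 2) (hω1 j) ?_
    intro k x hx
    have h3 := log_two_pow_le hx
    have h4 : 0 ≤ Real.log ((2 : ℝ) ^ k) := by rw [Real.log_pow]; positivity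
    calc (1 + 1 / ((j : ℝ) + 1)) * Real.log (2 ^ k) ^ 2 ≤ lam * Real.log (2 ^ k) ^ 2 := by
          apply mul_le_mul_of_nonneg_right (by linarith) (by positivity)
      _ ≤ lam * Real.log x ^ 2 := by gcongr
  · intro lam hlam
    obtain ⟨j, hj⟩ := exists_nat_one_div_lt (show (0 : ℝ) < (1 - max lam 0) / 2 by
      have : max lam 0 < 1 := max_lt hlam one_pos
      linarith)
    -- compare the block `k - 1` with `X` in the block `k`
    have hlam0 : max lam 0 < 1 := max_lt hlam one_pos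
    have h3 : ∀ᶠ k : ℕ in atTop, max lam 0 * Real.log (2 ^ (k + 2)) ^ 2 ≤
        (1 - 1 / ((j : ℝ) + 2)) * Real.log (2 ^ k) ^ 2 := by
      have hj2 : 1 / ((j : ℝ) + 2) ≤ 1 / ((j : ℝ) + 1) :=
        one_div_le_one_div_of_le (by positivity) (by linarith)
      have hη : 0 < 1 - 1 / ((j : ℝ) + 2) - max lam 0 := by linarith
      obtain ⟨k1, hk1⟩ := exists_nat_ge (8 / (1 - 1 / ((j : ℝ) + 2) - max lam 0))
      filter_upwards [eventually_ge_atTop (k1 + 1)] with k hk
      have hkr : 8 / (1 - 1 / ((j : ℝ) + 2) - max lam 0) ≤ k := by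
        have : (k1 : ℝ) ≤ k := by
          have : k1 ≤ k := by omega
          exact_mod_cast this
        linarith
      rw [div_le_iff₀ hη] at hkr
      rw [Real.log_pow, Real.log_pow]
      push_cast
      have hk1' : (1 : ℝ) ≤ k := by
        have : 1 ≤ k := by omega
        exact_mod_cast this
      have hm0 : 0 ≤ max lam 0 := le_max_right _ _
      have h4 : max lam 0 * (((k : ℝ) + 2) ^ 2) ≤ (1 - 1 / ((j : ℝ) + 2)) * (k : ℝ) ^ 2 := by
        nlinarith
      calc max lam 0 * (((k : ℝ) + 2) * Real.log 2) ^ 2 = max lam 0 * ((k : ℝ) + 2) ^ 2 * Real.log 2 ^ 2 := by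
            ring
        _ ≤ (1 - 1 / ((j : ℝ) + 2)) * (k : ℝ) ^ 2 * Real.log 2 ^ 2 := by gcongr
        _ = _ := by ring
    have h4 : ∀ᶠ k : ℕ in atTop, ∃ x h : ℕ, max lam 0 * Real.log (2 ^ (k + 2)) ^ 2 ≤ h ∧
        Ioc x (x + h) ⊆ block k ∧ ∀ n ∈ A ω, ¬ (x < n ∧ n ≤ x + h) := by
      filter_upwards [hω2 j, h3] with k hk1 hk2
      obtain ⟨x, h, h5, h6, h7⟩ := hk1
      exact ⟨x, h, hk2.trans h5, h6, h7⟩
    have h5 := (tendsto_sub_atTop_nat 1).comp tendsto_natLog
    filter_upwards [h5.eventually h4, eventually_ge_atTop 4, eventually_ge_atTop 2] with X hX hX4 _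
    simp only [Function.comp] at hX
    obtain ⟨x, h, h6, h7, h8⟩ := hX
    obtain ⟨k, hk⟩ : ∃ k : ℕ, k = Nat.log 2 X := ⟨_, rfl⟩
    have hk1 : 1 ≤ k := by
      rw [hk]; exact Nat.le_log_of_pow_le (by norm_num) (by omega)
    have hXb := mem_block_log (x := X) (by omega)
    rw [← hk] at h6 h7 hXb
    have hXl : Real.log X ≤ Real.log (2 ^ (k - 1 + 2)) := by
      have := log_le_log_two_pow hXb
      rwa [show k - 1 + 2 = k + 1 by omega]
    have hX0 : 0 ≤ Real.log (X : ℝ) := Real.log_natCast_nonneg X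
    have h9 : lam * Real.log X ^ 2 ≤ h := by
      calc lam * Real.log X ^ 2 ≤ max lam 0 * Real.log X ^ 2 :=
            mul_le_mul_of_nonneg_right (le_max_left _ _) (by positivity)
        _ ≤ max lam 0 * Real.log (2 ^ (k - 1 + 2)) ^ 2 := by
            have : 0 ≤ max lam 0 := le_max_right _ _
            gcongr
        _ ≤ h := h6
    rcases Nat.eq_zero_or_pos h with h0 | hpos
    · refine ⟨0, ?_, ?_⟩
      · rw [h0] at h9
        push_cast at h9 ⊢
        have : (0 : ℝ) ≤ X := Nat.cast_nonneg _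
        linarith
      · rintro n _ ⟨hn1, hn2⟩
        rw [h0] at h9
        push_cast at h9 hn2
        have : (0 : ℝ) < n := by exact_mod_cast hn1
        linarith
    · have h10 : x + h ∈ block (k - 1) := h7 (mem_Ioc.2 ⟨by omega, le_rfl⟩)
      rw [block, mem_Ico, Nat.sub_add_cancel hk1] at h10
      rw [block, mem_Ico] at hXb
      refine ⟨x, ?_, ?_⟩
      · have h11 : ((x + h : ℕ) : ℝ) ≤ X := by
          have : x + h ≤ X := by omega
          exact_mod_cast this
        push_cast at h11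
        linarith
      · rintro n hn ⟨hn1, hn2⟩
        apply h8 n hn
        refine ⟨hn1, ?_⟩
        have h11 : (n : ℝ) ≤ ((x + h : ℕ) : ℝ) := by push_cast; linarith
        exact_mod_cast h11

theorem cramerOne_bound {S : Set ℕ} (h : CramerOne S) : CramerBound S := ⟨2, h.1 2 (by norm_num)⟩

/-- Long gaps exclude the bound `x + g (log x)` if `g` is comparable with `f`. -/
theorem not_bound_of_unbounded {f : ℕ → ℝ} {g : ℝ → ℝ} {S : Set ℕ} {D : ℝ} (hS : GapsUnbounded f S)
    (hfg : ∀ᶠ k : ℕ in atTop, ∀ x ∈ block k, g (Real.log x) ≤ D * f k)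
    (h : ∀ᶠ x : ℕ in atTop, ∃ n ∈ S, x < n ∧ (n : ℝ) ≤ x + g (Real.log x))
    (hfpos : ∀ᶠ k : ℕ in atTop, 1 ≤ f k) : False := by
  obtain ⟨x0, hx0⟩ := eventually_atTop.1 h
  obtain ⟨k, hk, hk1, hk2, hk3⟩ := ((hS (D + 1)).and_eventually (hfg.and
    (hfpos.and (eventually_ge_atTop x0)))).exists
  obtain ⟨x, l, h1, h2, h3⟩ := hk
  have hDf : D * f k + 1 ≤ l := by linarith
  -- the window is nonempty and starts in the block or one step before
  have hl0 : 0 < l ∨ l = 0 := by omega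
  have hkx : x0 ≤ 2 ^ k := hk3.trans (Nat.lt_two_pow_self).le
  have hpow := Nat.one_le_two_pow (n := k)
  have hgk := hk1 (2 ^ k) (by rw [block, mem_Ico]; exact ⟨le_rfl, by rw [pow_succ]; omega⟩)
  rcases hl0 with hl | hl
  · -- take the point `x + 1` of the window if `l ≥ 2`
    have hx1 : x + 1 ∈ block k := h2 (mem_Ioc.2 ⟨by omega, by omega⟩)
    have hxl : x + l ∈ block k := h2 (mem_Ioc.2 ⟨by omega, le_rfl⟩)
    by_cases hxb : x ∈ block k
    · have h4 := hk1 x hxb
      have h5 : 2 ^ k ≤ x := (mem_Ico.1 (show x ∈ Ico (2 ^ k) (2 ^ (k + 1)) from hxb)).1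
      obtain ⟨n, hn, hn1, hn2⟩ := hx0 x (by omega)
      apply h3 n hn
      refine ⟨hn1, ?_⟩
      have h6 : (n : ℝ) < ((x + l : ℕ) : ℝ) := by push_cast; linarith
      have : n < x + l := by exact_mod_cast h6
      omega
    · -- `x + 1 = 2 ^ k`
      have h5 : x + 1 = 2 ^ k := by
        rw [block, mem_Ico] at hx1 hxb
        omega
      obtain ⟨n, hn, hn1, hn2⟩ := hx0 (x + 1) (by omega)
      have h4 := hk1 (x + 1) hx1
      apply h3 n hn
      refine ⟨by omega, ?_⟩
      have h6 : (n : ℝ) ≤ ((x + l : ℕ) : ℝ) := by push_cast at h4 hn2 ⊢; linarith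
      exact_mod_cast h6
  · rw [hl] at hDf
    push_cast at hDf
    obtain ⟨n, hn, hn1, hn2⟩ := hx0 (2 ^ k) hkx
    have : (((2 ^ k : ℕ)) : ℝ) < n := by exact_mod_cast hn1
    linarith

theorem not_allModels_bound {d : ℕ → ℝ} (hd : ∀ k, 0 ≤ d k) (hns : ¬ Summable (fun k : ℕ => d k / k)) :
    ¬ AllModels d CramerBound := by
  have hlog2 : 0 < Real.log 2 := Real.log_pos (by norm_num)
  have hns' : ¬ Summable (fun k : ℕ => d k * k / ((1 + 1) * Real.log (2 ^ k) ^ 2)) := by
    intro hs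
    apply hns
    refine (hs.mul_left (2 * Real.log 2 ^ 2)).congr (fun k => ?_)
    rw [Real.log_pow]
    by_cases hk : (k : ℝ) = 0
    · rw [hk]; simp
    · field_simp
      ring
  refine not_allModels_of (someModel_of (gapFunction_log one_pos) hd hns') ?_
  rintro S hS ⟨C, hC⟩
  refine not_bound_of_unbounded (g := fun y => C * y ^ 2) (D := 2 * |C|) hS ?_ hC ?_
  · filter_upwards [eventually_ge_atTop 1] with k hk x hx
    have h1 := log_le_log_two_pow hx
    have h2 : 0 ≤ Real.log (x : ℝ) := Real.log_natCast_nonneg x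
    have h3 : Real.log ((2 : ℝ) ^ (k + 1)) ≤ 2 * Real.log (2 ^ k) := by
      rw [Real.log_pow, Real.log_pow]
      push_cast
      have : (1 : ℝ) ≤ k := by exact_mod_cast hk
      nlinarith
    have h4 : Real.log (x : ℝ) ≤ 2 * Real.log (2 ^ k) := h1.trans h3
    calc C * Real.log x ^ 2 ≤ |C| * Real.log x ^ 2 :=
          mul_le_mul_of_nonneg_right (le_abs_self C) (by positivity)
      _ ≤ |C| * (2 * Real.log (2 ^ k)) ^ 2 := by gcongr
      _ = 2 * |C| * ((1 + 1) * Real.log (2 ^ k) ^ 2) := by ring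
  · filter_upwards [eventually_ge_atTop 2] with k hk
    rw [Real.log_pow]
    have h1 : (2 : ℝ) ≤ k := by exact_mod_cast hk
    have h2 := Real.log_two_gt_d9
    have h3 : 1 ≤ k * Real.log 2 := by nlinarith
    nlinarith

/-- The gap function `(log 2 ^ k) ^ α`, `α > 2`. -/
theorem gapFunction_rpow {α : ℝ} (hα : 2 < α) : GapFunction (fun k : ℕ => Real.log (2 ^ k) ^ α) := by
  have hlog2 : 0 < Real.log 2 := Real.log_pos (by norm_num)
  have htend : Tendsto (fun k : ℕ => Real.log ((2 : ℝ) ^ k)) atTop atTop := by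
    have h1 := tendsto_natCast_atTop_atTop (R := ℝ) |>.atTop_mul_const hlog2
    refine h1.congr (fun k => ?_)
    rw [Real.log_pow]
  refine ⟨?_, ⟨2 ^ α, ?_⟩, ⟨1, one_pos, ?_⟩, ?_⟩
  · intro a b hab
    have h1 : Real.log ((2 : ℝ) ^ a) ≤ Real.log ((2 : ℝ) ^ b) := by
      rw [Real.log_pow, Real.log_pow]
      have : (a : ℝ) ≤ b := by exact_mod_cast hab
      gcongr
    have h2 : 0 ≤ Real.log ((2 : ℝ) ^ a) := by rw [Real.log_pow]; positivity
    exact Real.rpow_le_rpow h2 h1 (by linarith)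
  · filter_upwards [eventually_ge_atTop 1] with k hk
    have hk1 : (1 : ℝ) ≤ k := by exact_mod_cast hk
    have h1 : Real.log ((2 : ℝ) ^ (k + 1)) ≤ 2 * Real.log (2 ^ k) := by
      rw [Real.log_pow, Real.log_pow]
      push_cast
      nlinarith
    have h2 : 0 ≤ Real.log ((2 : ℝ) ^ k) := by rw [Real.log_pow]; positivity
    have h3 : 0 ≤ Real.log ((2 : ℝ) ^ (k + 1)) := by rw [Real.log_pow]; positivity
    rw [← Real.mul_rpow (by norm_num) h2]
    exact Real.rpow_le_rpow h3 h1 (by linarith)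
  · have h1 := (tendsto_rpow_atTop (show 0 < α - 2 by linarith)).comp htend
    filter_upwards [h1.eventually_ge_atTop 2, htend.eventually_gt_atTop 0] with k hk hk0
    simp only [Function.comp] at hk
    have h2 : Real.log ((2 : ℝ) ^ k) ^ α = Real.log (2 ^ k) ^ (α - 2) * Real.log (2 ^ k) ^ 2 := by
      rw [show Real.log ((2 : ℝ) ^ k) ^ 2 = Real.log ((2 : ℝ) ^ k) ^ ((2 : ℕ) : ℝ) from
        (Real.rpow_natCast _ 2).symm, ← Real.rpow_add hk0]
      congr 1; push_cast; ring
    rw [h2]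
    have h3 : 0 ≤ Real.log ((2 : ℝ) ^ k) ^ 2 := by positivity
    nlinarith
  · have h1 := (isLittleO_rpow_exp_atTop α).bound (show (0 : ℝ) < (1 / 2) ^ α by positivity)
    have h2 : Tendsto (fun k : ℕ => Real.log ((2 : ℝ) ^ k) / 2) atTop atTop :=
      htend.atTop_div_const (by norm_num)
    filter_upwards [h2.eventually h1, htend.eventually_gt_atTop 0] with k hk hk0
    rw [Real.norm_of_nonneg (by positivity), Real.norm_of_nonneg (Real.exp_pos _).le] at hk
    have h3 : Real.log ((2 : ℝ) ^ k) ^ α = 2 ^ α * (Real.log (2 ^ k) / 2) ^ α := by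
      rw [← Real.mul_rpow (by norm_num) (by positivity)]
      congr 1; ring
    have h4 : (2 : ℝ) ^ ((k : ℝ) / 2) = Real.exp (Real.log (2 ^ k) / 2) := by
      rw [Real.rpow_def_of_pos (by norm_num), Real.log_pow]
      congr 1; ring
    rw [h3, h4]
    have h5 := mul_le_mul_of_nonneg_left hk (show (0 : ℝ) ≤ 2 ^ α by positivity)
    have h6 : (2 : ℝ) ^ α * (1 / 2) ^ α = 1 := by
      rw [← Real.mul_rpow (by norm_num) (by norm_num)]; norm_num
    rwa [← mul_assoc, h6, one_mul] at h5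

theorem polylog {d : ℕ → ℝ} (hd : ∀ k, 0 ≤ d k) {α : ℝ} (hα : 2 < α) :
    (Summable fun k : ℕ => d k * (k : ℝ) ^ (1 - α)) ↔
      AllModels d (fun S => ∀ᶠ x : ℕ in atTop, ∃ n ∈ S, x < n ∧ (n : ℝ) ≤ x + Real.log x ^ α) := by
  have hlog2 : 0 < Real.log 2 := Real.log_pos (by norm_num)
  have hsum : (Summable fun k : ℕ => d k * (k : ℝ) ^ (1 - α)) ↔
      Summable (fun k : ℕ => d k * k / Real.log (2 ^ k) ^ α) := by
    rw [← summable_mul_left_iff (a := (Real.log 2 ^ α)⁻¹) (by positivity)]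
    refine summable_congr_atTop ?_
    filter_upwards [eventually_ge_atTop 1] with k hk
    have hk1 : (0 : ℝ) < k := by exact_mod_cast hk
    rw [Real.log_pow, Real.mul_rpow hk1.le hlog2.le, Real.rpow_sub hk1, Real.rpow_one]
    field_simp
  rw [hsum]
  constructor
  · intro hs Ω _ μ _ A hA hdd
    filter_upwards [all_gaps hA (gapFunction_rpow hα) hs hdd] with ω hω
    refine cramer_of_gapsAtMost (g := fun y => y ^ α) hω ?_
    intro k x hx
    have h2 : 0 ≤ Real.log ((2 : ℝ) ^ k) := by rw [Real.log_pow]; positivity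
    exact Real.rpow_le_rpow h2 (log_two_pow_le hx) (by linarith)
  · intro hall
    by_contra hns
    refine not_allModels_of (someModel_of (gapFunction_rpow hα) hd hns) ?_ hall
    intro S hS hb
    refine not_bound_of_unbounded (g := fun y => y ^ α) (D := 2 ^ α) hS ?_ hb ?_
    · filter_upwards [eventually_ge_atTop 1] with k hk x hx
      have h1 := log_le_log_two_pow hx
      have h2 : 0 ≤ Real.log (x : ℝ) := Real.log_natCast_nonneg x
      have h5 : 0 ≤ Real.log ((2 : ℝ) ^ k) := by rw [Real.log_pow]; positivity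
      have h3 : Real.log ((2 : ℝ) ^ (k + 1)) ≤ 2 * Real.log (2 ^ k) := by
        rw [Real.log_pow, Real.log_pow]
        push_cast
        have : (1 : ℝ) ≤ k := by exact_mod_cast hk
        nlinarith
      rw [← Real.mul_rpow (by norm_num) h5]
      exact Real.rpow_le_rpow h2 (h1.trans h3) (by linarith)
    · filter_upwards [eventually_ge_atTop 2] with k hk
      rw [Real.log_pow]
      have h1 : (2 : ℝ) ≤ k := by exact_mod_cast hk
      have h2 := Real.log_two_gt_d9
      exact Real.one_le_rpow (by nlinarith) (by linarith)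

/-- **The information-theoretic threshold for Cramér's bound.** -/
theorem result :
    -- (1) the exact threshold for every regular gap function `f`
    (∀ f d : ℕ → ℝ, GapFunction f → (∀ k, 0 ≤ d k) →
      ((Summable fun k : ℕ => d k * k / f k) → AllModels d (GapsAtMost f)) ∧
      ((¬ Summable fun k : ℕ => d k * k / f k) → SomeModel d (GapsUnbounded f))) ∧
    -- (2) the threshold for Cramér's conjecture is the same with and without the constant
    (∀ d : ℕ → ℝ, (∀ k, 0 ≤ d k) →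
      List.TFAE [Summable fun k : ℕ => d k / k, AllModels d CramerOne, AllModels d CramerBound]) ∧
    -- (3) gaps bounded by a power of the logarithm
    (∀ d : ℕ → ℝ, (∀ k, 0 ≤ d k) → ∀ α : ℝ, 2 < α →
      ((Summable fun k : ℕ => d k * (k : ℝ) ^ (1 - α)) ↔
        AllModels d (fun S => ∀ᶠ x : ℕ in atTop, ∃ n ∈ S, x < n ∧ (n : ℝ) ≤ x + Real.log x ^ α))) := by
  refine ⟨?_, ?_, ?_⟩
  · intro f d hf hd
    refine ⟨?_, fun hns => someModel_of hf hd hns⟩
    intro hs Ω _ μ _ A hA hdd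
    exact all_gaps hA hf hs hdd
  · intro d hd
    tfae_have 1 → 2 := fun hs => cramerOne_of hs
    tfae_have 2 → 3 := by
      intro h Ω _ μ _ A hA hdd
      filter_upwards [h Ω μ A hA hdd] with ω hω
      exact cramerOne_bound hω
    tfae_have 3 → 1 := by
      intro h
      by_contra hns
      exact not_allModels_bound hd hns h
    tfae_finish
  · intro d hd α hα
    exact polylog hd hα

end Pool.Agent.Results.MP_028722_nt.EntropyThreshold
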