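import Pool.Agent.Q198.CI.T2

/-!
# How much independence is behind Cramér's conjecture?

In Cramér's random model every integer `n ≥ 3` is put into a random set `A` with probability
`1 / log n`, independently; then almost surely the gaps of `A` up to `x` are `O(log² x)`. In the
model with independence of order `κ` the events `n ∈ A` have the same probabilities, but only
those sets `T` of events are required to be independent whose number of elements is at most `κ n`
for all `n ∈ T`: this is the information contained in the correlations of order `κ`, the analogue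
of the conjectures of Hardy and Littlewood on `κ`-tuples of primes.

The theorem says that independence of order `≍ log n` is exactly what is needed for Cramér's
bound.
(1) If `κ n ≥ c log n` for all large `n`, then in EVERY such model the gaps are almost surely at
    most `C log² x`, where `C` depends only on `c`.
(2) If `κ` is nondecreasing and is not at least `c log n` for large `n` with some `c > 0`, then
    there is such a model in which almost surely for every `K` there are infinitely many `X` with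
    an interval `(x, x + K log² X]` inside `(0, X]` that is free of elements of `A`.
(3) If `κ n = o(log n)`, then there is such a model in which almost surely for every `K` there is
    an interval of this kind for ALL large `X`.
-/

set_option autoImplicit false

namespace Pool.Agent.Results.MP_028722_nt.LimitedIndependence

open MeasureTheory Filter Topology

/-- Cramér's model with independence of order `κ`: `E n` is the event that the integer `n` belongs
to the random set. For every finite set `T` of integers `n ≥ 3` with at most `κ n` elements for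
all `n ∈ T`, the probability that `T` is contained in the random set is `∏ 1 / log n`. -/
structure CramerModel {Ω : Type} [MeasurableSpace Ω] (P : Measure Ω) (κ : ℕ → ℕ)
    (E : ℕ → Set Ω) : Prop where
  meas : ∀ n, MeasurableSet (E n)
  indep : ∀ T : Finset ℕ, (∀ n ∈ T, 3 ≤ n ∧ T.card ≤ κ n) →
    P (⋂ n ∈ T, E n) = ENNReal.ofReal (∏ n ∈ T, 1 / Real.log n)

theorem result :
    (∀ c : ℝ, 0 < c → ∃ C : ℝ, ∀ (Ω : Type) [MeasurableSpace Ω] (P : Measure Ω)
      [IsProbabilityMeasure P] (κ : ℕ → ℕ) (E : ℕ → Set Ω), CramerModel P κ E →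
      (∀ᶠ n : ℕ in atTop, c * Real.log n ≤ κ n) →
      ∀ᵐ ω ∂P, ∀ᶠ x : ℕ in atTop, ∃ n : ℕ, x < n ∧ (n : ℝ) ≤ x + C * Real.log x ^ 2 ∧
        ω ∈ E n) ∧
    (∀ κ : ℕ → ℕ, Monotone κ → (¬ ∃ c : ℝ, 0 < c ∧ ∀ᶠ n : ℕ in atTop, c * Real.log n ≤ κ n) →
      ∃ (Ω : Type) (_ : MeasurableSpace Ω) (P : Measure Ω) (_ : IsProbabilityMeasure P)
        (E : ℕ → Set Ω), CramerModel P κ E ∧
        ∀ᵐ ω ∂P, ∀ K : ℝ, ∃ᶠ X : ℕ in atTop, ∃ x : ℕ, (x : ℝ) + K * Real.log X ^ 2 ≤ X ∧
          ∀ n : ℕ, x < n → (n : ℝ) ≤ x + K * Real.log X ^ 2 → ω ∉ E n) ∧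
    (∀ κ : ℕ → ℕ, Tendsto (fun n : ℕ => (κ n : ℝ) / Real.log n) atTop (𝓝 0) →
      ∃ (Ω : Type) (_ : MeasurableSpace Ω) (P : Measure Ω) (_ : IsProbabilityMeasure P)
        (E : ℕ → Set Ω), CramerModel P κ E ∧
        ∀ᵐ ω ∂P, ∀ K : ℝ, ∀ᶠ X : ℕ in atTop, ∃ x : ℕ, (x : ℝ) + K * Real.log X ^ 2 ≤ X ∧
          ∀ n : ℕ, x < n → (n : ℝ) ≤ x + K * Real.log X ^ 2 → ω ∉ E n) := by
  refine ⟨fun c hc => ?_, fun κ hmono hκ => ?_, fun κ hκ => ?_⟩
  · obtain ⟨C, hC⟩ := Q198.CI.suffices_log hc
    exact ⟨C, fun Ω mΩ P hP κ E hM hκ => hC Ω mΩ P hP κ E ⟨hM.meas, hM.indep⟩ hκ⟩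
  · obtain ⟨Ω, mΩ, P, hP, E, hM, hE⟩ := Q198.CI.not_suffices_mono hmono hκ
    exact ⟨Ω, mΩ, P, hP, E, ⟨hM.meas, hM.indep⟩, hE⟩
  · obtain ⟨Ω, mΩ, P, hP, E, hM, hE⟩ := Q198.CI.not_suffices hκ
    exact ⟨Ω, mΩ, P, hP, E, ⟨hM.meas, hM.indep⟩, hE⟩

end Pool.Agent.Results.MP_028722_nt.LimitedIndependence
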