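import Pool.Agent.Q253.Cov.LinT

/-!
# Short intervals without primes: the prime factors of the almost primes come from one thin set

Let `0 < h ≤ 1`, `r ≥ 2`, `25 < 3 (8 r - 1) h` and `η > 0`.  There are `C, δ, ρ > 0` and ONE set `Q` of primes with at most `C log x`
elements up to `x` such that for all large `X` every interval of `H ≥ X ^ h` integers below `X` (more generally: of `H` consecutive members of
any arithmetic progression below `X`) contains the expected order of primes, or of products of `2, ..., r` primes all `> H X ^ (-η)`, or the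
primes `q ∈ [X ^ (h/5), H X ^ (-η)]` which occur as smallest prime factor of the expected order of numbers with at most `r` prime factors
have harmonic measure at least `ρ`, and one of them is in `Q`.

Libraries (starting files): weighted sieve `Y882.KW.core4`, `Y151.HS.flc` (upper bound sieve), `W378.DC.MP` (Mertens).
-/

set_option autoImplicit false

namespace Pool.Agent.Results.MP_028722_nt.ThinFactorsShortIntervals

open Finset
open Pool.Agent.Q253.Cov (lin_thin Tms RichL Zl_sys)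
open Pool.Agent.Q253.P3 (rl Zl Zl_card)
open Pool.Agent.Q253.Thin (VZ_low)
open Pool.Agent.Y843.HS (Pr VV Pr_mem)

/-- the product of the `1 - 1/p` over the primes `p ≤ H` which do not divide `m` -/
noncomputable def dens (m H : ℕ) : ℝ := ∏ p ∈ (Icc 1 H).filter (fun p => p.Prime ∧ ¬ p ∣ m), (1 - 1 / (p : ℝ))

open Classical in
/-- the number of the `j` with `A < j ≤ A + H` and `P j` -/
noncomputable def count (A H : ℕ) (P : ℕ → Prop) : ℕ := ((Ioc A (A + H)).filter P).card

/-- `N` is `q` times a number `n ≥ 2` with at most `s` prime factors (with multiplicity), all `≥ q` -/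
def Times (q s N : ℕ) : Prop := ∃ n : ℕ, 2 ≤ n ∧ N = q * n ∧ n.primeFactorsList.length ≤ s ∧ ∀ p : ℕ, p.Prime → p ∣ n → q ≤ p

lemma dens_eq {m a : ℕ} (ham : Nat.Coprime a m) (H : ℕ) : dens m H = VV (Zl m a) 0 H := by
  unfold dens VV
  have h1 : Pr 0 H = (Icc 1 H).filter Nat.Prime := by
    ext p
    rw [Pr_mem, mem_filter, mem_Icc]
    constructor
    · rintro ⟨⟨a, b⟩, c⟩
      exact ⟨⟨c.pos, b⟩, c⟩
    · rintro ⟨⟨a, b⟩, c⟩
      exact ⟨⟨c.pos, b⟩, c⟩
  rw [h1, ← filter_filter, prod_filter (p := fun p => ¬ p ∣ m)]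
  apply prod_congr rfl
  intro p hp
  have hpp := (mem_filter.1 hp).2
  rw [Zl_card hpp ham]
  unfold rl
  split_ifs with hpm
  · simp
  · simp

/-- **The prime factors come from one thin set.** Let `h ≤ 1`, `r ≥ 2`, `25 < 3 (8 r - 1) h`, `η > 0`. There are `C, δ, ρ > 0` and a set
`Q` of primes with at most `C log x` elements up to `x` (`x ≥ 2`) such that for all large `X`, all `m ≥ 1`, all `a` prime to `m` and all
intervals `(A, A + H]` with `m (A + H) + a ≤ X` and `H ≥ X ^ h`: `dens m H ≥ δ / log X` and, with `N = H dens m H`, (1) at least `δ N` of the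
`m j + a`, `A < j ≤ A + H`, are primes, or (2) at least `δ N` of them are products of `2, ..., r` primes (with multiplicity), all
`> H X ^ (-η)`, or (3) there is a finite set `T` of primes `q`, `X ^ (h/5) ≤ q ≤ H X ^ (-η)`, with `∑ 1/q ≥ ρ`, such that for each `q ∈ T`
at least `δ N / q` of the `m j + a` are `q` times a number with `1, ..., r - 1` prime factors, all `≥ q`; and `T` contains an element of
`Q`. -/
theorem result : ∀ (h : ℝ) (r : ℕ), h ≤ 1 → 2 ≤ r → 25 < 3 * (8 * (r : ℝ) - 1) * h → ∀ η : ℝ, 0 < η →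
    ∃ C δ ρ : ℝ, 0 < C ∧ 0 < δ ∧ 0 < ρ ∧ ∃ Q : Set ℕ, (∀ q ∈ Q, q.Prime) ∧
    (∀ x : ℕ, 2 ≤ x → {q ∈ Q | q ≤ x}.Finite ∧ ({q ∈ Q | q ≤ x}.ncard : ℝ) ≤ C * Real.log x) ∧
    ∃ X₀ : ℕ, ∀ X : ℕ, X₀ ≤ X → ∀ m a A H : ℕ, 1 ≤ m → Nat.Coprime a m → m * (A + H) + a ≤ X → (X : ℝ) ^ h ≤ H →
      δ / Real.log X ≤ dens m H ∧
      (δ * (H * dens m H) ≤ count A H (fun j => (m * j + a).Prime) ∨
      δ * (H * dens m H) ≤ count A H (fun j => 2 ≤ (m * j + a).primeFactorsList.length ∧ (m * j + a).primeFactorsList.length ≤ r ∧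
        ∀ p : ℕ, p.Prime → p ∣ m * j + a → H * (X : ℝ) ^ (-η) < p) ∨
      ∃ T : Finset ℕ, (∀ q ∈ T, q.Prime ∧ (X : ℝ) ^ (h / 5) ≤ q ∧ (q : ℝ) ≤ H * (X : ℝ) ^ (-η) ∧
          δ * (H * dens m H / q) ≤ count A H (fun j => Times q (r - 1) (m * j + a))) ∧
        ρ ≤ ∑ q ∈ T, (1 : ℝ) / q ∧ ∃ q ∈ T, q ∈ Q) := by
  classical
  intro h r hh hr2 hr η hη
  obtain ⟨s, rfl⟩ : ∃ s, r = s + 1 := ⟨r - 1, by omega⟩
  have hs : 1 ≤ s := by omega
  have hh0 : 0 < h := by
    by_contra hcon
    push Not at hcon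
    have h1 : (1 : ℝ) ≤ ((s + 1 : ℕ) : ℝ) := by exact_mod_cast (by omega : 1 ≤ s + 1)
    nlinarith
  obtain ⟨C, hC, δ, hδ, ρ, hρ, Q, hQ, hQc, X₀, H1⟩ := lin_thin s h hh hs hr η hη
  obtain ⟨cV, hcV, hlow⟩ := VZ_low 1 le_rfl
  obtain ⟨δ', hδ'⟩ : ∃ δ', δ' = min δ cV := ⟨_, rfl⟩
  have hδ0 : 0 < δ' := by rw [hδ']; positivity
  have hδ1 : δ' ≤ δ := by rw [hδ']; exact min_le_left _ _
  have hδ2 : δ' ≤ cV := by rw [hδ']; exact min_le_right _ _
  have ev : ∀ᶠ X : ℕ in Filter.atTop, (2 : ℝ) ≤ (X : ℝ) ^ h :=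
    ((tendsto_rpow_atTop hh0).comp tendsto_natCast_atTop_atTop).eventually_ge_atTop _
  obtain ⟨X₁, hX₁⟩ := Filter.eventually_atTop.1 ev
  refine ⟨C, δ', ρ, hC, hδ0, hρ, Q, hQ, hQc, max (max X₀ X₁) 2, ?_⟩
  intro X hX m a A H hm ham hmX hH
  have x0 : X₀ ≤ X := ((le_max_left _ _).trans (le_max_left _ _)).trans hX
  have x1 := hX₁ X (((le_max_right _ _).trans (le_max_left _ _)).trans hX)
  have x2 : 2 ≤ X := (le_max_right _ _).trans hX
  have hH2 : 2 ≤ H := by exact_mod_cast x1.trans hH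
  have hH0 : (0 : ℝ) < H := by exact_mod_cast (by omega : 0 < H)
  have hHX : H ≤ X := by nlinarith
  have hlH : 0 < Real.log H := Real.log_pos (by exact_mod_cast (by omega : 1 < H))
  have hlX : Real.log H ≤ Real.log X := Real.log_le_log hH0 (by exact_mod_cast hHX)
  have hd : δ' / Real.log X ≤ dens m H := by
    rw [dens_eq ham]
    have h1 := hlow H hH2 _ (Zl_sys ham)
    rw [pow_one] at h1
    refine le_trans ?_ h1
    exact (div_le_div_of_nonneg_left hδ0.le hlH hlX).trans (div_le_div_of_nonneg_right hδ2 hlH.le)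
  refine ⟨hd, ?_⟩
  have hd0 : 0 < dens m H := lt_of_lt_of_le (div_pos hδ0 (lt_of_lt_of_le hlH hlX)) hd
  have hN0 : 0 ≤ (H : ℝ) * dens m H := by positivity
  rcases H1 X x0 m a A H hm ham hmX hH with h1 | h1 | ⟨h1, h2⟩
  · left
    rw [← dens_eq ham] at h1
    refine (mul_le_mul_of_nonneg_right hδ1 hN0).trans (h1.trans (le_of_eq ?_))
    unfold count
    congr!
  · right; left
    rw [← dens_eq ham] at h1
    refine (mul_le_mul_of_nonneg_right hδ1 hN0).trans (h1.trans ?_)
    unfold count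
    apply Nat.cast_le.2
    apply card_le_card
    intro j hj
    simp only [mem_filter] at hj ⊢
    obtain ⟨j1, j2, j3, j4, j5⟩ := hj
    refine ⟨j1, ?_, j4, j5⟩
    by_contra hcon
    push Not at hcon
    have hne : m * j + a ≠ 0 := by omega
    rcases hl : (m * j + a).primeFactorsList with _ | ⟨x, _ | ⟨y, l⟩⟩
    · have := (Nat.primeFactorsList_eq_nil (m * j + a)).1 hl
      omega
    · have h3 := Nat.prod_primeFactorsList hne
      rw [hl, List.prod_singleton] at h3
      apply j3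
      rw [← h3]
      exact Nat.prime_of_mem_primeFactorsList (n := m * j + a) (by rw [hl]; simp)
    · rw [hl] at hcon
      simp at hcon
  · right; right
    rw [← dens_eq ham] at h1 h2
    refine ⟨_, ?_, h1, h2⟩
    intro q hq
    unfold RichL at hq
    rw [mem_filter] at hq
    obtain ⟨-, q1, q2, q3, q4⟩ := hq
    refine ⟨q1, q2, q3, ?_⟩
    refine (mul_le_mul_of_nonneg_right hδ1 (by positivity)).trans (q4.trans (le_of_eq ?_))
    unfold count Times Tms
    simp only [Nat.add_sub_cancel]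

end Pool.Agent.Results.MP_028722_nt.ThinFactorsShortIntervals
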